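import Mathlib

set_option autoImplicit false
open Filter Topology Set

namespace Pool.Agent.Results.MP_d594f7_lc.Diverge

/-- `[ω]^ω` as a subspace of `2^ω` -/
abbrev InfSets := {x : ℕ → Bool // {n | x n = true}.Infinite}

/-- the set `[s, A]` -/
def ell (s : Finset ℕ) (A : Set ℕ) : Set InfSets :=
  {x | (s : Set ℕ) ⊆ {n | x.1 n = true} ∧ {n | x.1 n = true} ⊆ (s : Set ℕ) ∪ A ∧
    ∀ i, (∃ j ∈ s, i ≤ j) → (x.1 i = true ↔ i ∈ s)}

def RamseyNull (N : Set InfSets) : Prop :=
  ∀ (s : Finset ℕ) (A : Set ℕ), A.Infinite → (∀ i ∈ s, ∀ a ∈ A, i < a) →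
    ∃ B ⊆ A, B.Infinite ∧ ell s B ∩ N = ∅

noncomputable def par (p : ℕ) (x : InfSets) : ℝ :=
  if Even (Nat.count (fun n => x.1 n = true) p) then 0 else 1

lemma par_cont (p : ℕ) : Continuous (par p) := by
  have h1 : Continuous (fun x : InfSets => Nat.count (fun n => x.1 n = true) p) := by
    induction p with
    | zero => simpa using continuous_const
    | succ p ih =>
      simp only [Nat.count_succ]
      refine ih.add ?_
      exact (continuous_of_discreteTopology (f := fun b : Bool => if b = true then 1 else 0)).comp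
        ((continuous_apply p).comp continuous_subtype_val)
  exact (continuous_of_discreteTopology (f := fun c : ℕ => if Even c then (0 : ℝ) else 1)).comp h1

lemma avg {g : ℕ → ℝ} {c : ℝ} {b n : ℕ} (hn : 4 * (b + 1) ≤ n) (h0 : ∀ j, |g j - c| ≤ 1)
    (h1 : ∀ j, b < j → j < n → g j = c) :
    |1 / (n : ℝ) * ∑ j ∈ Finset.range n, g j - c| ≤ 1 / 4 := by
  have hn0 : (0 : ℝ) < n := by exact_mod_cast (by omega : 0 < n)
  have e : 1 / (n : ℝ) * ∑ j ∈ Finset.range n, g j - c
      = 1 / (n : ℝ) * ∑ j ∈ Finset.range n, (g j - c) := by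
    rw [Finset.sum_sub_distrib, Finset.sum_const, Finset.card_range, nsmul_eq_mul]; field_simp
  have e2 : ∑ j ∈ Finset.range n, (g j - c) = ∑ j ∈ Finset.range (b + 1), (g j - c) := by
    symm
    refine Finset.sum_subset (Finset.range_mono (by omega)) fun j hj hj' => ?_
    rw [Finset.mem_range] at hj hj'
    rw [h1 j (by omega) hj, sub_self]
  have e3 : |∑ j ∈ Finset.range (b + 1), (g j - c)| ≤ (b + 1 : ℕ) := by
    refine (Finset.abs_sum_le_sum_abs _ _).trans ((Finset.sum_le_sum fun j _ => h0 j).trans ?_)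
    simp
  rw [e, e2, abs_mul, abs_of_pos (by positivity), one_div_mul_eq_div, div_le_iff₀ hn0]
  have : ((4 * (b + 1) : ℕ) : ℝ) ≤ n := by exact_mod_cast hn
  push_cast at this e3
  linarith

theorem result : ∃ f : ℕ → InfSets → ℝ, (∀ p, Continuous (f p)) ∧ (∀ p x, f p x ∈ Icc (0 : ℝ) 1) ∧
    ∀ m n : ℕ → ℕ, StrictMono m → StrictMono n → ∀ N : Set InfSets, RamseyNull N →
      ∃ x ∉ N, ¬ ∃ l : ℝ, Tendsto (fun k => 1 / (n k : ℝ) * ∑ j ∈ Finset.range (n k), f (m j) x)
        atTop (𝓝 l) := by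
  classical
  have hpar : ∀ p x, par p x ∈ Icc (0 : ℝ) 1 := fun p x => by
    unfold par; split_ifs <;> simp
  refine ⟨par, par_cont, hpar, fun m n hm hn N hN => ?_⟩
  let g : ℕ → ℕ := fun h => m (n (4 * (h + 1))) + 1
  have hg : ∀ h, h < g h := fun h => by
    have h1 := hn.id_le (4 * (h + 1))
    have h2 := hm.id_le (n (4 * (h + 1)))
    simp only [g, id] at *
    omega
  let a : ℕ → ℕ := fun i => g^[i] 0
  have ha' : ∀ i, a (i + 1) = g (a i) := fun i => Function.iterate_succ_apply' _ _ _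
  have ha : StrictMono a := strictMono_nat_of_lt_succ fun i => by rw [ha']; exact hg _
  obtain ⟨B, hBA, hB, hBN⟩ := hN ∅ (range a) (infinite_range_of_injective ha.injective) (by simp)
  let x : InfSets := ⟨fun i => decide (i ∈ B), by simpa using hB⟩
  have hx : ∀ i, x.1 i = true ↔ i ∈ B := fun i => by simp [x]
  refine ⟨x, fun h => ?_, ?_⟩
  · have : x ∈ ell ∅ B ∩ N := ⟨⟨by simp, fun i hi => Or.inr ((hx i).1 hi), by simp⟩, h⟩
    rw [hBN] at this
    exact this
  rintro ⟨l, hl⟩
  set P : ℕ → Prop := fun n => x.1 n = true with hP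
  have hinf : {n | P n}.Infinite := x.2
  let b : ℕ → ℕ := Nat.nth P
  have hb : StrictMono b := Nat.nth_strictMono hinf
  have hbB : ∀ i, b i ∈ B := fun i => (hx _).1 (Nat.nth_mem_of_infinite hinf i)
  have gap : ∀ i, g (b i) ≤ b (i + 1) := by
    intro i
    obtain ⟨u, hu⟩ := hBA (hbB i)
    obtain ⟨v, hv⟩ := hBA (hbB (i + 1))
    have : u < v := ha.lt_iff_lt.1 (by rw [hu, hv]; exact hb (Nat.lt_succ_self i))
    rw [← hu, ← hv, ← ha']
    exact ha.monotone this
  have cnt : ∀ i t, b i < t → t ≤ b (i + 1) → Nat.count P t = i + 1 := by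
    intro i t h1 h2
    have c1 : i < Nat.count P t := (Nat.lt_nth_iff_count_lt hinf).2 h1
    have c2 : Nat.count P t ≤ i + 1 := (Nat.count_le_iff_le_nth hinf).2 h2
    omega
  have key : ∀ i, |1 / (n (4 * (b i + 1)) : ℝ) * ∑ j ∈ Finset.range (n (4 * (b i + 1))), par (m j) x
      - (if Even (i + 1) then 0 else 1)| ≤ 1 / 4 := by
    intro i
    refine avg (b := b i) (hn.id_le _) (fun j => ?_) fun j h1 h2 => ?_
    · have := hpar (m j) x
      rw [abs_le]
      split_ifs <;> constructor <;> linarith [this.1, this.2]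
    · have c1 : b i < m j := h1.trans_le (hm.id_le j)
      have c2 : m j ≤ b (i + 1) := by
        have := hm h2
        have := gap i
        simp only [g] at this
        omega
      unfold par
      rw [cnt i _ c1 c2]
  have t : ∀ r : ℕ, Tendsto (fun i => 4 * (b (2 * i + r) + 1)) atTop atTop := fun r =>
    tendsto_atTop_mono (fun i => by have := hb.id_le (2 * i + r); simp only [id] at this ⊢; omega)
      tendsto_id
  have h0 : 3 / 4 ≤ l := ge_of_tendsto' (hl.comp (t 0)) fun i => by
    have := key (2 * i + 0)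
    rw [if_neg (by simp [Nat.even_add_one]), abs_le] at this
    simp only [Function.comp]
    linarith [this.1]
  have h1 : l ≤ 1 / 4 := le_of_tendsto' (hl.comp (t 1)) fun i => by
    have := key (2 * i + 1)
    rw [if_pos ⟨i + 1, by ring⟩, abs_le] at this
    simp only [Function.comp]
    linarith [this.2]
  linarith

end Pool.Agent.Results.MP_d594f7_lc.Diverge
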